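import Mathlib
import Pool.Agent.QR.Setup

/-!
# Coarse Lipschitz embeddings into quasi-reflexive asymptotically uniformly smooth spaces

All notions are written exactly as in the problem: finite codimension of the canonical image in
the bidual, the modulus `rhoBar` with supremum, infimum over the closed subspaces of finite
codimension and supremum, and two-sided Lipschitz bounds at distances at least `theta`.
-/

set_option autoImplicit false

open Filter Topology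

namespace Pool.Agent.Results.MP_94c330_an.CoarseLipschitz

universe u v

/-- The canonical image of `Z` in its bidual has finite codimension. -/
def QuasiReflexive (Z : Type*) [NormedAddCommGroup Z] [NormedSpace ℝ Z] : Prop :=
  FiniteDimensional ℝ (StrongDual ℝ (StrongDual ℝ Z) ⧸
    LinearMap.range (NormedSpace.inclusionInDoubleDual ℝ Z).toLinearMap)

/-- The closed subspaces of finite codimension. -/
def FinCodim (Y : Type*) [NormedAddCommGroup Y] [NormedSpace ℝ Y] : Type _ :=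
  {E : Submodule ℝ Y // IsClosed (E : Set Y) ∧ FiniteDimensional ℝ (Y ⧸ E)}

/-- The modulus of asymptotic uniform smoothness. -/
noncomputable def rhoBar (Y : Type*) [NormedAddCommGroup Y] [NormedSpace ℝ Y] (t : ℝ) : ℝ :=
  ⨆ x : {x : Y // ‖x‖ = 1}, ⨅ E : FinCodim Y, ⨆ y : {y : Y // y ∈ E.1 ∧ ‖y‖ ≤ 1},
    (‖(x : Y) + t • (y : Y)‖ - 1)

/-- Asymptotic uniform smoothness. -/
def AUS (Y : Type*) [NormedAddCommGroup Y] [NormedSpace ℝ Y] : Prop :=
  Tendsto (fun t : ℝ => rhoBar Y t / t) (𝓝[>] 0) (𝓝 0)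

/-- Coarse Lipschitz embeddings, with the two-sided bound at distances at least `θ`. -/
def CoarseLipschitzEmbedding {X Y : Type*} [NormedAddCommGroup X] [NormedAddCommGroup Y]
    (f : X → Y) : Prop :=
  ∃ A : ℝ, 1 ≤ A ∧ ∃ θ : ℝ, 0 < θ ∧ ∀ x x' : X, θ ≤ ‖x - x'‖ →
    A⁻¹ * ‖x - x'‖ ≤ ‖f x - f x'‖ ∧ ‖f x - f x'‖ ≤ A * ‖x - x'‖

section Aux

variable {X : Type u} {Y : Type v} [NormedAddCommGroup X] [NormedSpace ℝ X]
  [NormedAddCommGroup Y] [NormedSpace ℝ Y]

theorem finite_quot_iff {Z W : Type*} [NormedAddCommGroup Z] [NormedSpace ℝ Z]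
    [NormedAddCommGroup W] [NormedSpace ℝ W] (J : Z →L[ℝ] W) :
    FiniteDimensional ℝ (W ⧸ LinearMap.range J.toLinearMap) ↔
      ∃ n : ℕ, ∃ ψ : Fin n → W, ∀ z : W, ∃ y : Z, ∃ c : Fin n → ℝ, z = J y + ∑ i, c i • ψ i := by
  constructor
  · intro h
    let b := Module.finBasis ℝ (W ⧸ LinearMap.range J.toLinearMap)
    choose ψ hψ using fun i => (LinearMap.range J.toLinearMap).mkQ_surjective (b i)
    refine ⟨_, ψ, fun z => ?_⟩
    have h1 : (LinearMap.range J.toLinearMap).mkQ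
        (z - ∑ i, b.repr ((LinearMap.range J.toLinearMap).mkQ z) i • ψ i) = 0 := by
      rw [map_sub, map_sum]
      have h2 : ∑ i, (LinearMap.range J.toLinearMap).mkQ
          (b.repr ((LinearMap.range J.toLinearMap).mkQ z) i • ψ i) =
          (LinearMap.range J.toLinearMap).mkQ z := by
        conv_rhs => rw [← b.sum_repr ((LinearMap.range J.toLinearMap).mkQ z)]
        refine Finset.sum_congr rfl fun i _ => ?_
        rw [map_smul, hψ]
      rw [h2, sub_self]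
    rw [Submodule.mkQ_apply, Submodule.Quotient.mk_eq_zero] at h1
    obtain ⟨y, hy⟩ := h1
    refine ⟨y, fun i => b.repr ((LinearMap.range J.toLinearMap).mkQ z) i, ?_⟩
    have hy' : J y = z - ∑ i, b.repr ((LinearMap.range J.toLinearMap).mkQ z) i • ψ i := hy
    rw [hy']
    abel
  · rintro ⟨n, ψ, hψ⟩
    refine Module.Finite.of_surjective (Fintype.linearCombination ℝ
      (fun i => (LinearMap.range J.toLinearMap).mkQ (ψ i))) ?_
    intro q
    obtain ⟨z, rfl⟩ := (LinearMap.range J.toLinearMap).mkQ_surjective q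
    obtain ⟨y, c, rfl⟩ := hψ z
    refine ⟨c, ?_⟩
    have h0 : (LinearMap.range J.toLinearMap).mkQ (J y) = 0 := by
      rw [Submodule.mkQ_apply, Submodule.Quotient.mk_eq_zero]
      exact ⟨y, rfl⟩
    rw [Fintype.linearCombination_apply, map_add, h0, zero_add, map_sum]
    refine Finset.sum_congr rfl fun i _ => ?_
    rw [map_smul]

theorem quasiReflexive_iff : QuasiReflexive X ↔ Pool.Agent.QR.QRefl X := by
  have h := finite_quot_iff (Z := X) (W := StrongDual ℝ (StrongDual ℝ X))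
    (NormedSpace.inclusionInDoubleDual ℝ X)
  exact h

/-- A closed subspace of finite codimension contains a finite intersection of kernels. -/
theorem exists_kernels (E : Submodule ℝ Y) (hE : IsClosed (E : Set Y))
    (hfin : FiniteDimensional ℝ (Y ⧸ E)) :
    ∃ n : ℕ, ∃ φ : Fin n → StrongDual ℝ Y, ∀ y : Y, (∀ i, φ i y = 0) → y ∈ E := by
  have : IsClosed (E : Set Y) := hE
  let b := Module.finBasis ℝ (Y ⧸ E)
  refine ⟨Module.finrank ℝ (Y ⧸ E),
    fun i => (LinearMap.toContinuousLinearMap (b.coord i)).comp E.mkQL, fun y hy => ?_⟩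
  have h1 : E.mkQ y = 0 := by
    refine b.ext_elem fun i => ?_
    rw [map_zero]
    exact hy i
  rwa [Submodule.mkQ_apply, Submodule.Quotient.mk_eq_zero] at h1

theorem ausAt_of_AUS (h : AUS Y) (ε : ℝ) (hε : 0 < ε) :
    ∃ d : ℝ, 0 < d ∧ Pool.Agent.QR.AusAt Y ε d := by
  have h1 : ∀ᶠ t : ℝ in 𝓝[>] 0, rhoBar Y t / t < ε := h.eventually (gt_mem_nhds hε)
  rw [eventually_nhdsWithin_iff, Metric.eventually_nhds_iff] at h1
  obtain ⟨d, hd0, hd⟩ := h1
  refine ⟨d, hd0, fun t ht0 htd x hx => ?_⟩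
  have h2 : rhoBar Y t / t < ε := hd (by rw [Real.dist_eq, sub_zero, abs_of_pos ht0]; exact htd) ht0
  have h3 : rhoBar Y t < ε * t := (div_lt_iff₀ ht0).mp h2
  -- the pointwise upper bound
  have hub : ∀ (x : {x : Y // ‖x‖ = 1}) (y : Y), ‖y‖ ≤ 1 → ‖(x : Y) + t • y‖ - 1 ≤ t := by
    intro x y hy
    have : ‖(x : Y) + t • y‖ ≤ ‖(x : Y)‖ + ‖t • y‖ := norm_add_le _ _
    rw [norm_smul, Real.norm_of_nonneg ht0.le, x.2] at this
    have h4 : t * ‖y‖ ≤ t * 1 := mul_le_mul_of_nonneg_left hy ht0.le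
    linarith
  have hbdd : ∀ (x : {x : Y // ‖x‖ = 1}) (E : FinCodim Y),
      BddAbove (Set.range fun y : {y : Y // y ∈ E.1 ∧ ‖y‖ ≤ 1} => ‖(x : Y) + t • (y : Y)‖ - 1) := by
    intro x E
    refine ⟨t, ?_⟩
    rintro _ ⟨y, rfl⟩
    exact hub x y y.2.2
  have hzero : ∀ (x : {x : Y // ‖x‖ = 1}) (E : FinCodim Y),
      0 ≤ ⨆ y : {y : Y // y ∈ E.1 ∧ ‖y‖ ≤ 1}, (‖(x : Y) + t • (y : Y)‖ - 1) := by
    intro x E
    refine le_ciSup_of_le (hbdd x E) ⟨0, E.1.zero_mem, by simp⟩ ?_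
    simp [x.2]
  have hle : ∀ (x : {x : Y // ‖x‖ = 1}) (E : FinCodim Y),
      (⨆ y : {y : Y // y ∈ E.1 ∧ ‖y‖ ≤ 1}, (‖(x : Y) + t • (y : Y)‖ - 1)) ≤ t := by
    intro x E
    have : Nonempty {y : Y // y ∈ E.1 ∧ ‖y‖ ≤ 1} := ⟨⟨0, E.1.zero_mem, by simp⟩⟩
    exact ciSup_le fun y => hub x y y.2.2
  have htop : FiniteDimensional ℝ (Y ⧸ (⊤ : Submodule ℝ Y)) := inferInstance
  let top : FinCodim Y := ⟨⊤, isClosed_univ, htop⟩
  have : Nonempty (FinCodim Y) := ⟨top⟩
  have houter : BddAbove (Set.range fun x : {x : Y // ‖x‖ = 1} =>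
      ⨅ E : FinCodim Y, ⨆ y : {y : Y // y ∈ E.1 ∧ ‖y‖ ≤ 1}, (‖(x : Y) + t • (y : Y)‖ - 1)) := by
    refine ⟨t, ?_⟩
    rintro _ ⟨x, rfl⟩
    exact (ciInf_le ⟨0, by rintro _ ⟨E, rfl⟩; exact hzero x E⟩ top).trans (hle x top)
  have h4 : (⨅ E : FinCodim Y, ⨆ y : {y : Y // y ∈ E.1 ∧ ‖y‖ ≤ 1},
      (‖x + t • (y : Y)‖ - 1)) < ε * t :=
    lt_of_le_of_lt (le_ciSup houter ⟨x, hx⟩) h3
  obtain ⟨E, hE⟩ := exists_lt_of_ciInf_lt h4
  obtain ⟨n, φ, hφ⟩ := exists_kernels E.1 E.2.1 E.2.2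
  refine ⟨n, φ, fun y hy hyt => ?_⟩
  have hyE : t⁻¹ • y ∈ E.1 := E.1.smul_mem _ (hφ y hy)
  have hy1 : ‖t⁻¹ • y‖ ≤ 1 := by
    rw [norm_smul, norm_inv, Real.norm_of_nonneg ht0.le, inv_mul_le_iff₀ ht0, mul_one]
    exact hyt
  have h5 := (le_ciSup (hbdd ⟨x, hx⟩ E) ⟨t⁻¹ • y, hyE, hy1⟩).trans_lt hE
  have h6 : t • t⁻¹ • y = y := smul_inv_smul₀ ht0.ne' y
  simp only at h5
  rw [h6] at h5
  linarith

theorem coarse_of_embedding {f : X → Y} (hf : CoarseLipschitzEmbedding f) :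
    ∃ A B : ℝ, 1 ≤ A ∧ 1 ≤ B ∧ Pool.Agent.QR.CoarseEmb X Y A B := by
  obtain ⟨A, hA, θ, hθ, h⟩ := hf
  have hA0 : 0 < A := by linarith
  have key : ∀ a b : X, ‖a - b‖ / A - 5 * A * θ ≤ ‖f a - f b‖ ∧
      ‖f a - f b‖ ≤ A * ‖a - b‖ + 5 * A * θ := by
    intro a b
    rcases le_or_gt θ ‖a - b‖ with hab | hab
    · obtain ⟨h1, h2⟩ := h a b hab
      have h3 : 0 ≤ 5 * A * θ := by positivity
      rw [inv_mul_eq_div] at h1
      exact ⟨by linarith, by linarith⟩
    · have h1 : ‖a - b‖ / A ≤ 5 * A * θ := by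
        rw [div_le_iff₀ hA0]
        have : θ ≤ 5 * A * θ * A := by nlinarith [mul_pos hA0 hθ, mul_pos (mul_pos hA0 hθ) hA0]
        linarith
      refine ⟨by linarith [norm_nonneg (f a - f b)], ?_⟩
      rcases eq_or_ne a b with rfl | hne
      · simp only [sub_self, norm_zero, mul_zero, zero_add]
        positivity
      · have hn : 0 < ‖a - b‖ := norm_pos_iff.mpr (sub_ne_zero.mpr hne)
        obtain ⟨w, hw⟩ : ∃ w : X, ‖w‖ = 2 * θ := by
          refine ⟨(2 * θ / ‖a - b‖) • (a - b), ?_⟩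
          rw [norm_smul, Real.norm_of_nonneg (by positivity)]
          field_simp
        have e1 : ‖a - (a + w)‖ = 2 * θ := by
          rw [show a - (a + w) = -w by abel, norm_neg, hw]
        have e2 : ‖(a + w) - b‖ ≤ 3 * θ := by
          rw [show a + w - b = (a - b) + w by abel]
          refine (norm_add_le _ _).trans ?_
          rw [hw]; linarith
        have e3 : θ ≤ ‖(a + w) - b‖ := by
          have : ‖w‖ ≤ ‖(a + w) - b‖ + ‖a - b‖ := by
            have h2 : w = ((a + w) - b) - (a - b) := by abel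
            calc ‖w‖ = ‖((a + w) - b) - (a - b)‖ := by rw [← h2]
              _ ≤ _ := norm_sub_le _ _
          rw [hw] at this
          linarith
        have h2 := (h a (a + w) (by rw [e1]; linarith)).2
        have h3 := (h (a + w) b e3).2
        rw [e1] at h2
        have h4 : ‖f a - f b‖ ≤ ‖f a - f (a + w)‖ + ‖f (a + w) - f b‖ :=
          norm_sub_le_norm_sub_add_norm_sub _ _ _
        have h5 : A * ‖(a + w) - b‖ ≤ A * (3 * θ) := mul_le_mul_of_nonneg_left e2 hA0.le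
        have h6 : 0 ≤ A * ‖a - b‖ := by positivity
        linarith
  exact ⟨max A 1, max A 1, le_max_right _ _, le_max_right _ _,
    Pool.Agent.QR.coarseEmb_of_map (C := 5 * A * θ) hA0 hA0 (by positivity) key⟩

theorem qrefl_of_coarse' [CompleteSpace X] [CompleteSpace Y] (hY : Pool.Agent.QR.QRefl Y)
    (haus : ∀ ε : ℝ, 0 < ε → ∃ d : ℝ, 0 < d ∧ Pool.Agent.QR.AusAt Y ε d)
    {A B : ℝ} (hA1 : 1 ≤ A) (hB1 : 1 ≤ B) (hf : Pool.Agent.QR.CoarseEmb X Y A B) :
    Pool.Agent.QR.QRefl X := by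
  obtain ⟨F, _, _, Q, hQ, hQs, hQk, hQ0⟩ := Pool.Agent.QR.exists_bidualQuot Y
  obtain ⟨E, _, _, QX, hQX, hQXs, hQXk, hQX0⟩ := Pool.Agent.QR.exists_bidualQuot X
  have : FiniteDimensional ℝ F := Pool.Agent.QR.finiteDimensional_of_qrefl Q hQs hQ0 hY
  have : ProperSpace F := FiniteDimensional.proper_real F
  by_contra hX
  have hE : ¬ FiniteDimensional ℝ E :=
    fun h => hX (Pool.Agent.QR.qrefl_of_finiteDimensional QX hQXs hQXk h)
  obtain ⟨R, e, hR, he1, he2⟩ := exists_seq_norm_le_one_le_norm_sub (𝕜 := ℝ) hE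
  have hlift : ∀ n, ∃ z : StrongDual ℝ (StrongDual ℝ X), QX z = e n ∧ ‖z‖ ≤ R + 1 := by
    intro n
    obtain ⟨z, hz⟩ := hQXs (e n)
    have h1 : ‖QX z‖ < R + 1 := by rw [hz]; linarith [he1 n]
    obtain ⟨y, hy⟩ := hQX.ex z (R + 1) h1
    refine ⟨z - NormedSpace.inclusionInDoubleDual ℝ X y, ?_, hy.le⟩
    refine (map_sub QX _ _).trans ?_
    rw [hQX0, sub_zero, hz]
  choose z hz1 hz2 using hlift
  refine Pool.Agent.QR.main_contradiction hQ hQX hA1 hB1 hf (fun ε hε => ?_) hz2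
    (fun m n hmn => ?_)
  · obtain ⟨d, hd0, hd⟩ := haus ε hε
    exact ⟨min d 1, lt_min hd0 one_pos, min_le_right _ _,
      fun t ht0 htd => hd t ht0 (htd.trans_le (min_le_left _ _))⟩
  · rw [hz1, hz1]
    exact he2 hmn

end Aux

/-- A Banach space that coarse Lipschitzly embeds into a quasi-reflexive asymptotically uniformly
smooth Banach space is quasi-reflexive. -/
theorem result :
    ∀ (X : Type u) [NormedAddCommGroup X] [NormedSpace ℝ X] [CompleteSpace X]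
      (Y : Type v) [NormedAddCommGroup Y] [NormedSpace ℝ Y] [CompleteSpace Y],
      QuasiReflexive Y → AUS Y → (∃ f : X → Y, CoarseLipschitzEmbedding f) →
      QuasiReflexive X := by
  intro X _ _ _ Y _ _ _ hY haus hf
  obtain ⟨f, hf⟩ := hf
  obtain ⟨A, B, hA, hB, h⟩ := coarse_of_embedding hf
  exact quasiReflexive_iff.mpr (qrefl_of_coarse' (quasiReflexive_iff.mp hY)
    (fun ε hε => ausAt_of_AUS haus ε hε) hA hB h)

end Pool.Agent.Results.MP_94c330_an.CoarseLipschitz
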